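import Mathlib

/-!
# LEAF A1: the Nullstellensatz

PROOF.  `MvPolynomial.vanishingIdeal_zeroLocus_eq_radical` (for the field `K` and the algebraically closed extension `AlgebraicClosure K`): `X b` vanishes on the zero locus `{0}` (or `∅`) of the ideal, so it is in the radical.  Take for `N` the sum (or maximum) of the exponents for the `b`.
-/

namespace LVY

theorem null {K : Type} [Field K] {q j r : ℕ} (P : Ideal (MvPolynomial (Fin q) K))
    (f : Fin j → MvPolynomial (Fin q) K) (ell : Fin r → MvPolynomial (Fin q) K)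
    (h : ∀ x : Fin q → AlgebraicClosure K, (∀ g ∈ P, MvPolynomial.aeval x g = 0) →
      (∀ l, MvPolynomial.aeval x (f l) = 0) → (∀ k, MvPolynomial.aeval x (ell k) = 0) → x = 0) :
    ∃ N : ℕ, 1 ≤ N ∧ ∀ b, MvPolynomial.X b ^ N ∈ P ⊔ Ideal.span (Set.range f) ⊔ Ideal.span (Set.range ell) := by
  classical
  have key : ∀ b : Fin q, ∃ n : ℕ, (MvPolynomial.X b : MvPolynomial (Fin q) K) ^ n ∈
      P ⊔ Ideal.span (Set.range f) ⊔ Ideal.span (Set.range ell) := by
    intro b
    have hr : (MvPolynomial.X b : MvPolynomial (Fin q) K) ∈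
        (P ⊔ Ideal.span (Set.range f) ⊔ Ideal.span (Set.range ell)).radical := by
      rw [← MvPolynomial.vanishingIdeal_zeroLocus_eq_radical (K := AlgebraicClosure K),
        MvPolynomial.mem_vanishingIdeal_iff]
      intro x hx
      rw [MvPolynomial.mem_zeroLocus_iff] at hx
      have hx0 : x = 0 := by
        refine h x (fun g hg => hx g ?_) (fun l => hx _ ?_) (fun k => hx _ ?_)
        · exact Ideal.mem_sup_left (Ideal.mem_sup_left hg)
        · exact Ideal.mem_sup_left (Ideal.mem_sup_right (Ideal.subset_span ⟨l, rfl⟩))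
        · exact Ideal.mem_sup_right (Ideal.subset_span ⟨k, rfl⟩)
      rw [hx0, MvPolynomial.aeval_X]
      rfl
    exact Ideal.mem_radical_iff.1 hr
  choose n hn using key
  refine ⟨1 + ∑ b, n b, by omega, fun b => ?_⟩
  have hle : n b ≤ 1 + ∑ c, n c :=
    (Finset.single_le_sum (f := n) (fun _ _ => Nat.zero_le _) (Finset.mem_univ b)).trans
      (Nat.le_add_left _ _)
  obtain ⟨m, hm⟩ := Nat.exists_eq_add_of_le hle
  rw [hm, pow_add]
  exact Ideal.mul_mem_right _ _ (hn b)

end LVY
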