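import Mathlib

/-!
# LEAF A4: an elementary bound of Bezout type

PROOF.  Let `V` be the space of the functions `S → F` and `W` the span of the functions `x ↦ ∏ b, x b ^ α b` with `α b < N` for all `b` (at most `N ^ q` of them).  Every function `x ↦ eval x g` on `S` is in `W`: it is enough to treat the monomials `g = ∏ X b ^ α b`, by strong induction on the degree `∑ α b`: if `α b < N` for all `b` it is a generator of `W`; if `α b ≥ N` for some `b`, then on `S` the monomial is `(monomial with α b replaced by α b - N) * eval x (A b)`, a polynomial function all whose monomials have degree `< ∑ α b`.  Every function on the finite set `S` is the restriction of a polynomial function (interpolation: for distinct points `x ≠ y` of `F ^ q` some coordinate separates them; the function which is `1` at `x` and `0` at the other points is a product of the `(X b - y b) / (x b - y b)`), so `W = V` and `#S = dim V ≤ N ^ q` (`finrank_span_le_card` or similar; `1 ≤ N` is not needed).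
-/

namespace LVY

open Classical in
private theorem A4_poly {F : Type} [Field F] {q N : ℕ} (A : Fin q → MvPolynomial (Fin q) F)
    (hA : ∀ b, (A b).totalDegree < N) (S : Finset (Fin q → F))
    (hS : ∀ x ∈ S, ∀ b, x b ^ N = MvPolynomial.eval x (A b)) (n : ℕ) :
    ∀ g : MvPolynomial (Fin q) F, g.totalDegree ≤ n →
      (fun x : S => MvPolynomial.eval (x : Fin q → F) g) ∈ Submodule.span F
        (Set.range fun (α : Fin q → Fin N) (x : S) => ∏ b, (x : Fin q → F) b ^ (α b : ℕ)) := by
  induction n using Nat.strong_induction_on with
  | _ n ih =>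
    intro g hg
    have h0 : (fun x : S => MvPolynomial.eval (x : Fin q → F) g) =
        ∑ α ∈ g.support, (g.coeff α) • (fun x : S => ∏ b, (x : Fin q → F) b ^ α b) := by
      funext x
      rw [MvPolynomial.eval_eq', Finset.sum_apply]
      rfl
    rw [h0]
    refine Submodule.sum_mem _ fun α hα => Submodule.smul_mem _ _ ?_
    by_cases hα' : ∀ b, α b < N
    · exact Submodule.subset_span ⟨fun b => ⟨α b, hα' b⟩, rfl⟩
    · push Not at hα'
      obtain ⟨b, hb⟩ := hα'
      have hle : Finsupp.single b N ≤ α := Finsupp.single_le_iff.2 hb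
      have hsum : (α - Finsupp.single b N) + Finsupp.single b N = α := tsub_add_cancel_of_le hle
      have hmon : (MvPolynomial.monomial α (1 : F)) =
          MvPolynomial.monomial (α - Finsupp.single b N) 1 * MvPolynomial.X b ^ N := by
        rw [MvPolynomial.X_pow_eq_monomial, MvPolynomial.monomial_mul, hsum, one_mul]
      have hev : (fun x : S => ∏ b, (x : Fin q → F) b ^ α b) = fun x : S =>
          MvPolynomial.eval (x : Fin q → F) (MvPolynomial.monomial (α - Finsupp.single b N) 1 * A b) := by
        funext x
        have h1 : (∏ b, (x : Fin q → F) b ^ α b) =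
            MvPolynomial.eval (x : Fin q → F) (MvPolynomial.monomial α (1 : F)) := by
          rw [MvPolynomial.eval_monomial, one_mul, Finsupp.prod_fintype]
          intro i
          exact pow_zero _
        rw [h1, hmon, map_mul, map_mul, map_pow, MvPolynomial.eval_X, hS x x.2 b]
      rw [hev]
      have hd1 : (α.sum fun _ e => e) ≤ n := (MvPolynomial.le_totalDegree hα).trans hg
      have hd2 : (α.sum fun _ e => e) = ((α - Finsupp.single b N).sum fun _ e => e) + N := by
        conv_lhs => rw [← hsum]
        rw [Finsupp.sum_add_index' (fun _ => rfl) (fun _ _ _ => rfl), Finsupp.sum_single_index rfl]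
      have hd3 : (MvPolynomial.monomial (α - Finsupp.single b N) (1 : F) * A b).totalDegree <
          (α.sum fun _ e => e) := by
        refine lt_of_le_of_lt (MvPolynomial.totalDegree_mul _ _) ?_
        rw [MvPolynomial.totalDegree_monomial _ one_ne_zero, hd2]
        exact Nat.add_lt_add_left (hA b) _
      exact ih _ (lt_of_lt_of_le hd3 hd1) _ le_rfl

open Classical in
private theorem A4_interp {F : Type} [Field F] {q : ℕ} (S : Finset (Fin q → F)) (x : Fin q → F) :
    ∃ g : MvPolynomial (Fin q) F, MvPolynomial.eval x g = 1 ∧
      ∀ y ∈ S, y ≠ x → MvPolynomial.eval y g = 0 := by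
  have h : ∀ y : Fin q → F, ∃ p : MvPolynomial (Fin q) F, y ≠ x →
      MvPolynomial.eval x p = 1 ∧ MvPolynomial.eval y p = 0 := by
    intro y
    by_cases hy : y = x
    · exact ⟨0, fun h => absurd hy h⟩
    · have h2 : ∃ b, x b - y b ≠ 0 := by
        by_contra h1
        push Not at h1
        exact hy (funext fun b => (sub_eq_zero.1 (h1 b)).symm)
      obtain ⟨b, hb⟩ := h2
      refine ⟨MvPolynomial.C (x b - y b)⁻¹ * (MvPolynomial.X b - MvPolynomial.C (y b)), fun _ => ⟨?_, ?_⟩⟩
      · rw [map_mul, MvPolynomial.eval_C, map_sub, MvPolynomial.eval_X, MvPolynomial.eval_C]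
        exact inv_mul_cancel₀ hb
      · rw [map_mul, map_sub, MvPolynomial.eval_X, MvPolynomial.eval_C, MvPolynomial.eval_C, sub_self,
          mul_zero]
  choose p hp using h
  refine ⟨∏ y ∈ S.erase x, p y, ?_, ?_⟩
  · rw [map_prod]
    exact Finset.prod_eq_one fun y hy => (hp y (Finset.mem_erase.1 hy).1).1
  · intro y hy hne
    rw [map_prod]
    exact Finset.prod_eq_zero (Finset.mem_erase.2 ⟨hne, hy⟩) (hp y hne).2

theorem bez {F : Type} [Field F] {q N : ℕ} (A : Fin q → MvPolynomial (Fin q) F) (hA : ∀ b, (A b).totalDegree < N)
    (S : Finset (Fin q → F)) (hS : ∀ x ∈ S, ∀ b, x b ^ N = MvPolynomial.eval x (A b)) : S.card ≤ N ^ q := by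
  classical
  have htop : Submodule.span F
      (Set.range fun (α : Fin q → Fin N) (x : S) => ∏ b, (x : Fin q → F) b ^ (α b : ℕ)) = ⊤ := by
    rw [eq_top_iff]
    intro f _
    have hf : f = ∑ x : S, f x • (Pi.single x (1 : F) : S → F) := by
      funext y
      rw [Finset.sum_apply, Finset.sum_eq_single y]
      · rw [Pi.smul_apply, Pi.single_eq_same, smul_eq_mul, mul_one]
      · intro x _ hx
        rw [Pi.smul_apply, Pi.single_eq_of_ne (Ne.symm hx), smul_zero]
      · intro h
        exact absurd (Finset.mem_univ _) h
    rw [hf]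
    refine Submodule.sum_mem _ fun x _ => Submodule.smul_mem _ _ ?_
    obtain ⟨g, hg1, hg0⟩ := A4_interp S (x : Fin q → F)
    have h1 : (Pi.single x (1 : F) : S → F) = fun y : S => MvPolynomial.eval (y : Fin q → F) g := by
      funext y
      by_cases hy : y = x
      · rw [hy, Pi.single_eq_same, hg1]
      · rw [Pi.single_eq_of_ne hy, hg0 y y.2 (fun h => hy (Subtype.ext h))]
    rw [h1]
    exact A4_poly A hA S hS _ g le_rfl
  have h2 := finrank_range_le_card (R := F)
    (fun (α : Fin q → Fin N) (x : S) => ∏ b, (x : Fin q → F) b ^ (α b : ℕ))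
  rw [Set.finrank, htop, finrank_top, Module.finrank_fintype_fun_eq_card, Fintype.card_coe,
    Fintype.card_fun, Fintype.card_fin, Fintype.card_fin] at h2
  exact h2

end LVY
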