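import Pool.Agent.Lib.MP_17a322_ntLH.Defs
import Pool.Agent.Lib.LW.NLDefs

/-! Integral points on the complement of fixed and of random hypersurface sections of a projective variety: definitions.
The coordinates are indexed by `σ`; `LVH.mon x α` is the value at `x` of the monomial `α`, `LVH.fv a x` the value at `x`
of the form with coefficients `a`, `LVH.co ω c t = ∑ k, c (t, k) ω k`. -/

namespace LVY

open NumberField
open LVH (fv co)

/-- the index set of the coefficients of `s` forms in the variables indexed by `σ`, the `i`-th of degree `d i`; the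
monomials of degree `m` are the multisets of `m` variables -/
abbrev Mo (σ : Type) {s : ℕ} (d : Fin s → ℕ) : Type := (i : Fin s) × Sym σ (d i)

/-- the value at `x` of the `i`-th form -/
def Fv {R σ : Type} [CommRing R] [Fintype σ] [DecidableEq σ] {s : ℕ} {d : Fin s → ℕ} (a : Mo σ d → R) (i : Fin s)
    (x : σ → R) : R := fv (fun α => a ⟨i, α⟩) x

/-- the degree of the divisor `D`, the sum of the hypersurfaces `f l = 0` of degrees `e l` and of the hypersurfaces of
degrees `d i` -/
def dg {j s : ℕ} (e : Fin j → ℕ) (d : Fin s → ℕ) : ℕ := ∑ l, e l + ∑ i, d i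

/-- the value at `x` of the equation of `D`, the product of the forms `f l` and of the `s` forms with coefficients `a` -/
noncomputable def Dv {K σ : Type} [Field K] [NumberField K] [Fintype σ] [DecidableEq σ] {j s : ℕ} {d : Fin s → ℕ}
    (f : Fin j → MvPolynomial σ (𝓞 K)) (a : Mo σ d → K) (x : σ → K) : K :=
  (∏ l, MvPolynomial.aeval x (f l)) * ∏ i, Fv a i x

/-- the local height of the divisor at the point with coordinates `x` for the absolute value `v`,
`- log (|D(x)|_v / |x|_v ^ deg D)` -/
noncomputable def lam {K σ : Type} [Field K] [NumberField K] [Fintype σ] [DecidableEq σ] {j s : ℕ} {d : Fin s → ℕ}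
    (v : AbsoluteValue K ℝ) (e : Fin j → ℕ) (f : Fin j → MvPolynomial σ (𝓞 K)) (a : Mo σ d → K) (x : σ → K) : ℝ :=
  (dg e d : ℝ) * Real.log (⨆ w, v (x w)) - Real.log (v (Dv f a x))

/-- the proximity function of the divisor for the set of places consisting of the infinite places and the places
in `S`, at the point with coordinates `x` -/
noncomputable def mS {K σ : Type} [Field K] [NumberField K] [Fintype σ] [DecidableEq σ] {j s : ℕ} {d : Fin s → ℕ}
    (S : Finset (FinitePlace K)) (e : Fin j → ℕ) (f : Fin j → MvPolynomial σ (𝓞 K)) (a : Mo σ d → K) (x : σ → K) : ℝ :=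
  (∑ v : InfinitePlace K, (v.mult : ℝ) * lam v.1 e f a x + ∑ v ∈ S, lam v.1 e f a x) / Module.finrank ℚ K

/-- the coefficient vector `∑ k, c (t, k) ω k` in `K` -/
noncomputable def cf {K : Type} [Field K] [NumberField K] {τ : Type} {n : ℕ} (ω : Fin n → 𝓞 K) (c : τ × Fin n → ℤ) :
    τ → K := co (fun k => (ω k : K)) fun t => ((c t : ℤ) : K)

/-- the ideal `P` is homogeneous -/
def Hm {K σ : Type} [Field K] (P : Ideal (MvPolynomial σ K)) : Prop :=
  ∀ g ∈ P, ∀ n, MvPolynomial.homogeneousComponent n g ∈ P

/-- the ideal `P` is prime over an algebraic closure and its zero set has dimension `r`: for a homogeneous ideal `P`,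
its projective variety is geometrically integral of dimension `r - 1` -/
def GI {K σ : Type} [Field K] (P : Ideal (MvPolynomial σ K)) (r : ℕ) : Prop :=
  (P.map (MvPolynomial.map (σ := σ) (algebraMap K (AlgebraicClosure K)))).IsPrime ∧
    ringKrullDim (MvPolynomial σ K ⧸ P) = r

/-- the vector `x` is a zero of all elements of `P` -/
def On {K σ : Type} [Field K] (P : Ideal (MvPolynomial σ K)) (x : σ → K) : Prop := ∀ g ∈ P, MvPolynomial.eval x g = 0

/-- there are `r` linear forms which have no common zero with `P` and the `f l` other than `0` over an algebraic closure: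
the intersection of the projective variety of `P` with the hypersurfaces `f l = 0` has dimension at most `r - 1` -/
def GP {K σ : Type} [Field K] [NumberField K] {j : ℕ} (P : Ideal (MvPolynomial σ K)) (f : Fin j → MvPolynomial σ (𝓞 K))
    (r : ℕ) : Prop :=
  ∃ ell : Fin r → MvPolynomial σ K, (∀ k, (ell k).IsHomogeneous 1) ∧ ∀ x : σ → AlgebraicClosure K,
    (∀ g ∈ P, MvPolynomial.aeval x g = 0) →
      (∀ l, MvPolynomial.aeval x (MvPolynomial.map (algebraMap (𝓞 K) K) (f l)) = 0) →
        (∀ k, MvPolynomial.aeval x (ell k) = 0) → x = 0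

end LVY
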