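import Pool.Agent.Lib.MP_17a322_ntLY.Defs

/-!
# LEAF A2: homogeneous representations

PROOF.  `w = g + ∑ h l * f l + ∑ k i * ell i` with `g ∈ P` (`Ideal.mem_sup`, `Ideal.mem_span_range_iff_exists_fun`).  Take the homogeneous components of degree `N`: `w` is its own component, the component of `g` is in `P` (`Hm`), the component of `h l * f l` is `(homogeneousComponent (N - e l) (h l)) * f l` if `e l ≤ N` and `0` otherwise (write `h l` as the sum of its components, `MvPolynomial.sum_homogeneousComponent`, and use `MvPolynomial.homogeneousComponent_of_mem` or similar), and these are of total degree `≤ N - e l < N` (`N ≥ 1`, `e l ≥ 1`).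
-/

namespace LVY

open MvPolynomial in
private theorem A2_comp {K σ : Type} [Field K] (N e : ℕ) (hN : 1 ≤ N) (he : 1 ≤ e) (h f : MvPolynomial σ K)
    (hf : f.IsHomogeneous e) :
    ∃ h' : MvPolynomial σ K, h'.totalDegree < N ∧ homogeneousComponent N (h * f) = h' * f := by
  classical
  have key : homogeneousComponent N (h * f) =
      ∑ i ∈ Finset.range (h.totalDegree + 1), if i + e = N then homogeneousComponent i h * f else 0 := by
    conv_lhs => rw [← sum_homogeneousComponent h]
    rw [Finset.sum_mul, map_sum]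
    refine Finset.sum_congr rfl fun i _ => ?_
    have hm : (homogeneousComponent i h * f).IsHomogeneous (i + e) :=
      (homogeneousComponent_isHomogeneous i h).mul hf
    rw [homogeneousComponent_of_mem ((mem_homogeneousSubmodule _ _).2 hm)]
    by_cases hc : i + e = N
    · rw [if_pos hc, if_pos hc.symm]
    · rw [if_neg hc, if_neg fun h => hc h.symm]
  refine ⟨∑ i ∈ Finset.range (h.totalDegree + 1), if i + e = N then homogeneousComponent i h else 0, ?_, ?_⟩
  · refine lt_of_le_of_lt (totalDegree_finsetSum _ _) ?_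
    rw [Finset.sup_lt_iff (by simpa using (by omega : 0 < N))]
    intro i _
    by_cases hc : i + e = N
    · rw [if_pos hc]
      have := (homogeneousComponent_isHomogeneous i h).totalDegree_le
      omega
    · rw [if_neg hc, totalDegree_zero]
      omega
  · rw [key, Finset.sum_mul]
    refine Finset.sum_congr rfl fun i _ => ?_
    by_cases hc : i + e = N
    · rw [if_pos hc, if_pos hc]
    · rw [if_neg hc, if_neg hc, zero_mul]

theorem hom_dec {K σ : Type} [Field K] (P : Ideal (MvPolynomial σ K)) (hP : Hm P) {j r N : ℕ} (hN : 1 ≤ N)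
    (e : Fin j → ℕ) (he : ∀ l, 1 ≤ e l) (f : Fin j → MvPolynomial σ K) (hf : ∀ l, (f l).IsHomogeneous (e l))
    (ell : Fin r → MvPolynomial σ K) (hl : ∀ k, (ell k).IsHomogeneous 1) (w : MvPolynomial σ K)
    (hw : w.IsHomogeneous N) (h : w ∈ P ⊔ Ideal.span (Set.range f) ⊔ Ideal.span (Set.range ell)) :
    ∃ g ∈ P, ∃ (h : Fin j → MvPolynomial σ K) (k : Fin r → MvPolynomial σ K), g.IsHomogeneous N ∧
      (∀ l, (h l).totalDegree < N) ∧ (∀ i, (k i).totalDegree < N) ∧
        w = g + ∑ l, h l * f l + ∑ i, k i * ell i := by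
  classical
  obtain ⟨a, ha, b, hb, hab⟩ := Submodule.mem_sup.1 h
  obtain ⟨g, hg, a', ha', hga⟩ := Submodule.mem_sup.1 ha
  obtain ⟨c, hc⟩ := Ideal.mem_span_range_iff_exists_fun.1 ha'
  obtain ⟨d, hd⟩ := Ideal.mem_span_range_iff_exists_fun.1 hb
  choose c' hc1 hc2 using fun l => A2_comp N (e l) hN (he l) (c l) (f l) (hf l)
  choose d' hd1 hd2 using fun k => A2_comp N 1 hN le_rfl (d k) (ell k) (hl k)
  refine ⟨MvPolynomial.homogeneousComponent N g, hP g hg N, c', d',
    MvPolynomial.homogeneousComponent_isHomogeneous N g, hc1, hd1, ?_⟩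
  have hw' : MvPolynomial.homogeneousComponent N w = w := by
    rw [MvPolynomial.homogeneousComponent_of_mem ((MvPolynomial.mem_homogeneousSubmodule _ _).2 hw), if_pos rfl]
  rw [← hw']
  conv_lhs => rw [← hab, ← hga, ← hc, ← hd]
  rw [map_add, map_add, map_sum, map_sum]
  simp only [hc2, hd2]

end LVY
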