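import Pool.Agent.Lib.MP_17a322_ntLY.A1
import Pool.Agent.Lib.MP_17a322_ntLY.A2

/-!
# LEAF A3: the equations of the slices

PROOF.  `GP P f r` gives linear forms `ell0`; `null` and `hom_dec` (for the forms `MvPolynomial.map (algebraMap (𝓞 K) K) (f l)`, and `w = X b ^ N`) give `X b ^ N = g b + ∑ h b l * f l + ∑ k b i * ell0 i` over `K`.  Choose a nonzero integer `M0` such that `M0` times each of the polynomials `g b`, `h b l`, `k b i`, `ell0 i` has coefficients in `𝓞 K` (for one polynomial: `IsLocalization.integerNormalization`-like, or: each element of `K` has a nonzero integer multiple which is integral, and the supports are finite; take the product over the finitely many polynomials), multiply by `M0 ^ 2 = M`: `M X b ^ N = M0 (M0 g b) + ∑ M0 (M0 h b l) * f l + ∑ (M0 k b i) * (M0 ell0 i)` over `K`, hence over `𝓞 K` by the injectivity of `MvPolynomial.map (algebraMap (𝓞 K) K)`.  Total degrees and homogeneity: `MvPolynomial.map` of an injective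 map preserves them (`MvPolynomial.totalDegree_map_of_injective` or via the coefficients).
-/

namespace LVY

open NumberField

private theorem A3_clear {K σ : Type} [Field K] [NumberField K] (p : MvPolynomial σ K) :
    ∃ m : ℕ, m ≠ 0 ∧ ∃ p' : MvPolynomial σ (𝓞 K),
      MvPolynomial.map (algebraMap (𝓞 K) K) p' = MvPolynomial.C (m : K) * p := by
  classical
  obtain ⟨y, hy, hint⟩ := exists_integral_multiples ℤ ℚ (L := K)
    (p.support.image fun t => MvPolynomial.coeff t p)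
  refine ⟨y.natAbs, Int.natAbs_ne_zero.2 hy, ?_⟩
  have hz : ∀ t, ∃ z : 𝓞 K, algebraMap (𝓞 K) K z = (y.natAbs : K) * MvPolynomial.coeff t p := by
    intro t
    by_cases ht : t ∈ p.support
    · have h1 := hint (MvPolynomial.coeff t p) (Finset.mem_image_of_mem _ ht)
      rcases Int.natAbs_eq y with h | h
      · refine ⟨⟨_, h1⟩, ?_⟩
        change y • MvPolynomial.coeff t p = _
        rw [zsmul_eq_mul]
        conv_lhs => rw [h]
        rw [Int.cast_natCast]
      · refine ⟨⟨_, h1.neg⟩, ?_⟩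
        change -(y • MvPolynomial.coeff t p) = _
        rw [zsmul_eq_mul]
        conv_lhs => rw [h]
        rw [Int.cast_neg, Int.cast_natCast, neg_mul, neg_neg]
    · refine ⟨0, ?_⟩
      rw [MvPolynomial.notMem_support_iff.1 ht, mul_zero, map_zero]
  choose z hz using hz
  refine ⟨∑ t ∈ p.support, MvPolynomial.monomial t (z t), ?_⟩
  rw [map_sum]
  conv_rhs => rw [p.as_sum, Finset.mul_sum]
  refine Finset.sum_congr rfl fun t _ => ?_
  rw [MvPolynomial.map_monomial, hz, MvPolynomial.C_mul_monomial]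

private theorem A3_clear_fin {K σ ι : Type} [Field K] [NumberField K] [Fintype ι]
    (p : ι → MvPolynomial σ K) :
    ∃ m : ℕ, m ≠ 0 ∧ ∀ M : ℕ, m ∣ M → ∀ i, ∃ p' : MvPolynomial σ (𝓞 K),
      MvPolynomial.map (algebraMap (𝓞 K) K) p' = MvPolynomial.C (M : K) * p i := by
  choose m hm p' hp' using fun i => A3_clear (p i)
  refine ⟨∏ i, m i, Finset.prod_ne_zero_iff.2 fun i _ => hm i, fun M hM i => ?_⟩
  obtain ⟨c, hc⟩ := (Finset.dvd_prod_of_mem m (Finset.mem_univ i)).trans hM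
  refine ⟨MvPolynomial.C (c : 𝓞 K) * p' i, ?_⟩
  rw [map_mul, hp', MvPolynomial.map_C, map_natCast, hc, Nat.cast_mul, map_mul]
  ring

private theorem A3_deg {K σ : Type} [Field K] [NumberField K] {N M : ℕ}
    (p' : MvPolynomial σ (𝓞 K)) (p : MvPolynomial σ K)
    (h : MvPolynomial.map (algebraMap (𝓞 K) K) p' = MvPolynomial.C (M : K) * p)
    (hp : p.totalDegree < N) : p'.totalDegree < N := by
  have h0 : p'.totalDegree = (MvPolynomial.map (algebraMap (𝓞 K) K) p').totalDegree := by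
    unfold MvPolynomial.totalDegree
    rw [MvPolynomial.support_map_of_injective p' (FaithfulSMul.algebraMap_injective (𝓞 K) K)]
  have h1 : (MvPolynomial.map (algebraMap (𝓞 K) K) p').support ⊆ p.support := by
    rw [h]
    intro t ht
    rw [MvPolynomial.mem_support_iff, MvPolynomial.coeff_C_mul] at ht
    exact MvPolynomial.mem_support_iff.2 (right_ne_zero_of_mul ht)
  rw [h0]
  exact (MvPolynomial.totalDegree_le_of_support_subset h1).trans_lt hp

theorem slice_eq (K : Type) [Field K] [NumberField K] {q j r : ℕ} (P : Ideal (MvPolynomial (Fin q) K)) (hP : Hm P)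
    (e : Fin j → ℕ) (he : ∀ l, 1 ≤ e l) (f : Fin j → MvPolynomial (Fin q) (𝓞 K)) (hf : ∀ l, (f l).IsHomogeneous (e l))
    (h : GP P f r) : ∃ (N M : ℕ) (ell : Fin r → MvPolynomial (Fin q) (𝓞 K)) (g : Fin q → MvPolynomial (Fin q) (𝓞 K))
      (hh : Fin q → Fin j → MvPolynomial (Fin q) (𝓞 K)) (kk : Fin q → Fin r → MvPolynomial (Fin q) (𝓞 K)),
      1 ≤ N ∧ M ≠ 0 ∧ (∀ b, (g b).IsHomogeneous N) ∧ (∀ b, MvPolynomial.map (algebraMap (𝓞 K) K) (g b) ∈ P) ∧
        (∀ b l, (hh b l).totalDegree < N) ∧ (∀ b i, (kk b i).totalDegree < N) ∧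
          ∀ b, MvPolynomial.C (M : 𝓞 K) * MvPolynomial.X b ^ N = g b + ∑ l, hh b l * f l + ∑ i, kk b i * ell i := by
  classical
  obtain ⟨ell0, hell0, hGP⟩ := h
  have hinj : Function.Injective (algebraMap (𝓞 K) K) := FaithfulSMul.algebraMap_injective (𝓞 K) K
  have hinj' : Function.Injective (MvPolynomial.map (σ := Fin q) (algebraMap (𝓞 K) K)) :=
    MvPolynomial.map_injective _ hinj
  obtain ⟨N, hN, hX⟩ := null P (fun l => MvPolynomial.map (algebraMap (𝓞 K) K) (f l)) ell0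
    (fun x h1 h2 h3 => hGP x h1 h2 h3)
  have hdec : ∀ b, ∃ g ∈ P, ∃ (h : Fin j → MvPolynomial (Fin q) K) (k : Fin r → MvPolynomial (Fin q) K),
      g.IsHomogeneous N ∧ (∀ l, (h l).totalDegree < N) ∧ (∀ i, (k i).totalDegree < N) ∧
        MvPolynomial.X b ^ N =
          g + ∑ l, h l * MvPolynomial.map (algebraMap (𝓞 K) K) (f l) + ∑ i, k i * ell0 i := by
    intro b
    refine hom_dec P hP hN e he (fun l => MvPolynomial.map (algebraMap (𝓞 K) K) (f l))
      (fun l => (hf l).map _) ell0 hell0 (MvPolynomial.X b ^ N) ?_ (hX b)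
    exact MvPolynomial.isHomogeneous_X_pow b N
  choose g0 hg0 h0 k0 hgh hh0 hk0 heq using hdec
  obtain ⟨m1, hm1, c1⟩ := A3_clear_fin g0
  obtain ⟨m2, hm2, c2⟩ := A3_clear_fin (fun t : Fin q × Fin j => h0 t.1 t.2)
  obtain ⟨m3, hm3, c3⟩ := A3_clear_fin (fun t : Fin q × Fin r => k0 t.1 t.2)
  obtain ⟨m4, hm4, c4⟩ := A3_clear_fin ell0
  obtain ⟨M0, hM0⟩ : ∃ M0 : ℕ, M0 = m1 * m2 * m3 * m4 := ⟨_, rfl⟩
  have hM0' : M0 ≠ 0 := hM0 ▸ mul_ne_zero (mul_ne_zero (mul_ne_zero hm1 hm2) hm3) hm4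
  choose g1 hg1 using c1 M0 ⟨m2 * m3 * m4, by rw [hM0]; ring⟩
  choose h1 hh1 using c2 M0 ⟨m1 * m3 * m4, by rw [hM0]; ring⟩
  choose k1 hk1 using c3 M0 ⟨m1 * m2 * m4, by rw [hM0]; ring⟩
  choose l1 hl1 using c4 M0 ⟨m1 * m2 * m3, by rw [hM0]; ring⟩
  have hmC : ∀ n : ℕ, MvPolynomial.map (σ := Fin q) (algebraMap (𝓞 K) K) (MvPolynomial.C (n : 𝓞 K)) =
      MvPolynomial.C (n : K) := by
    intro n
    rw [MvPolynomial.map_C, map_natCast]
  refine ⟨N, M0 * M0, l1, fun b => MvPolynomial.C (M0 : 𝓞 K) * g1 b,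
    fun b l => MvPolynomial.C (M0 : 𝓞 K) * h1 (b, l), fun b i => k1 (b, i), hN,
    mul_ne_zero hM0' hM0', fun b => ?_, fun b => ?_, fun b l => ?_, fun b i => ?_, fun b => ?_⟩
  · apply MvPolynomial.IsHomogeneous.of_map hinj
    rw [map_mul, hmC, hg1, ← mul_assoc, ← map_mul]
    exact (hgh b).C_mul _
  · rw [map_mul, hmC, hg1]
    exact P.mul_mem_left _ (P.mul_mem_left _ (hg0 b))
  · refine A3_deg (M := M0 * M0) _ (h0 b l) ?_ (hh0 b l)
    rw [map_mul, hmC, hh1, ← mul_assoc, ← map_mul, Nat.cast_mul]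
  · exact A3_deg (M := M0) _ (k0 b i) (hk1 (b, i)) (hk0 b i)
  · apply hinj'
    rw [map_mul, hmC, map_pow, MvPolynomial.map_X, heq b, map_add, map_add, map_sum, map_sum,
      map_mul, hmC, hg1]
    have e1 : ∀ l, MvPolynomial.map (algebraMap (𝓞 K) K)
        (MvPolynomial.C (M0 : 𝓞 K) * h1 (b, l) * f l) =
        MvPolynomial.C (M0 : K) * (MvPolynomial.C (M0 : K) *
          (h0 b l * MvPolynomial.map (algebraMap (𝓞 K) K) (f l))) := by
      intro l
      rw [map_mul, map_mul, hmC, hh1]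
      ring
    have e2 : ∀ i, MvPolynomial.map (algebraMap (𝓞 K) K) (k1 (b, i) * l1 i) =
        MvPolynomial.C (M0 : K) * (MvPolynomial.C (M0 : K) * (k0 b i * ell0 i)) := by
      intro i
      rw [map_mul, hk1, hl1]
      ring
    rw [Finset.sum_congr rfl fun l _ => e1 l, Finset.sum_congr rfl fun i _ => e2 i,
      ← Finset.mul_sum, ← Finset.mul_sum, ← Finset.mul_sum, ← Finset.mul_sum, Nat.cast_mul, map_mul]
    ring

end LVY
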