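import Pool.Agent.Lib.MP_17a322_ntLY.PDefs

/-!
# LEAF P2: elementary symmetric sums

PROOF.  `es_even`: let `S n T = ∑ k < n, (-1) ^ k * Es T f k`; show `0 ≤ (-1) ^ n * (∏ t ∈ T, (1 - f t) - S n T)` for all `n` by induction on `T` (`Es (insert a T) f (k + 1) = Es T f (k + 1) + f a * Es T f k` as in `LVH.E4A_step` (file `MP_17a322_ntLH/E4A.lean`, private: copy it), `Es T f 0 = 1`, so `S (n + 1) (insert a T) = S (n + 1) T - f a * S n T` and `S 0 = 0`; `∏ (insert a T) = (1 - f a) * ∏ T`).  Take `n = 2 m + 1`.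
`es_pow`: induction on `T` for all `k` at once: `(k + 1)! Es (insert a T) (k + 1) = (k + 1)! Es T (k + 1) + (k + 1) f a * k! Es T k ≤ e ^ (k + 1) + (k + 1) f a e ^ k ≤ (e + f a) ^ (k + 1)` with `e = ∑ t ∈ T, f t` (the last step: `one_add_mul_le_pow`-like, or the first two terms of the binomial formula, e.g. by induction on `k`).
-/

namespace LVY

open Finset

private theorem P2_step {τ : Type} [DecidableEq τ] {T : Finset τ} {a : τ} (ha : a ∉ T) (f : τ → ℝ) (k : ℕ) :
    Es (insert a T) f (k + 1) = Es T f (k + 1) + f a * Es T f k := by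
  unfold Es
  rw [Finset.powersetCard_succ_insert ha, Finset.sum_union, Finset.sum_image, Finset.mul_sum]
  · refine congrArg _ (Finset.sum_congr rfl fun U hU => ?_)
    have h1 : a ∉ U := fun h => ha ((Finset.mem_powersetCard.1 hU).1 h)
    rw [Finset.prod_insert h1]
  · intro U hU U' hU' h
    have h1 : a ∉ U := fun h => ha ((Finset.mem_powersetCard.1 hU).1 h)
    have h2 : a ∉ U' := fun h => ha ((Finset.mem_powersetCard.1 hU').1 h)
    rw [← Finset.erase_insert h1, ← Finset.erase_insert h2]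
    exact congrArg (fun V => V.erase a) h
  · rw [Finset.disjoint_left]
    intro U hU hU'
    obtain ⟨V, _, rfl⟩ := Finset.mem_image.1 hU'
    exact ha ((Finset.mem_powersetCard.1 hU).1 (Finset.mem_insert_self a V))

private theorem P2_zero {τ : Type} [DecidableEq τ] (T : Finset τ) (f : τ → ℝ) : Es T f 0 = 1 := by
  unfold Es
  rw [Finset.powersetCard_zero, Finset.sum_singleton, Finset.prod_empty]

private theorem P2_empty {τ : Type} [DecidableEq τ] (f : τ → ℝ) (k : ℕ) : Es (∅ : Finset τ) f (k + 1) = 0 := by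
  unfold Es
  rw [Finset.powersetCard_eq_empty.2 (by simp), Finset.sum_empty]

private theorem P2_sum {τ : Type} [DecidableEq τ] {T : Finset τ} {a : τ} (ha : a ∉ T) (f : τ → ℝ) (n : ℕ) :
    ∑ k ∈ range (n + 1), (-1 : ℝ) ^ k * Es (insert a T) f k =
      ∑ k ∈ range (n + 1), (-1 : ℝ) ^ k * Es T f k - f a * ∑ k ∈ range n, (-1 : ℝ) ^ k * Es T f k := by
  rw [Finset.sum_range_succ' _ n, Finset.sum_range_succ' _ n, P2_zero, P2_zero, Finset.mul_sum]
  have h : ∀ k ∈ range n, (-1 : ℝ) ^ (k + 1) * Es (insert a T) f (k + 1) =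
      (-1 : ℝ) ^ (k + 1) * Es T f (k + 1) - f a * ((-1 : ℝ) ^ k * Es T f k) := by
    intro k _
    rw [P2_step ha, pow_succ]
    ring
  rw [Finset.sum_congr rfl h, Finset.sum_sub_distrib]
  ring

private theorem P2_main {τ : Type} [DecidableEq τ] (f : τ → ℝ) (T : Finset τ) :
    (∀ t ∈ T, 0 ≤ f t) → (∀ t ∈ T, f t ≤ 1) →
    ∀ n : ℕ, 0 ≤ (-1 : ℝ) ^ n * (∏ t ∈ T, (1 - f t) - ∑ k ∈ range n, (-1 : ℝ) ^ k * Es T f k) := by
  induction T using Finset.induction_on with
  | empty =>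
    intro _ _ n
    rcases n with _ | n
    · simp
    · rw [Finset.sum_range_succ' _ n, P2_zero, Finset.prod_empty]
      have h : ∑ k ∈ range n, (-1 : ℝ) ^ (k + 1) * Es (∅ : Finset τ) f (k + 1) = 0 := by
        refine Finset.sum_eq_zero fun k _ => ?_
        rw [P2_empty, mul_zero]
      rw [h]
      simp
  | insert a T ha ih =>
    intro h0 h1 n
    have h0' : ∀ t ∈ T, 0 ≤ f t := fun t ht => h0 t (Finset.mem_insert_of_mem ht)
    have h1' : ∀ t ∈ T, f t ≤ 1 := fun t ht => h1 t (Finset.mem_insert_of_mem ht)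
    have ha0 : 0 ≤ f a := h0 a (Finset.mem_insert_self a T)
    rcases n with _ | n
    · rw [pow_zero, one_mul, Finset.range_zero, Finset.sum_empty, sub_zero]
      exact Finset.prod_nonneg fun t ht => sub_nonneg.2 (h1 t ht)
    · rw [P2_sum ha, Finset.prod_insert ha]
      have h2 := ih h0' h1' (n + 1)
      have h3 := mul_nonneg ha0 (ih h0' h1' n)
      have h4 := add_nonneg h2 h3
      rw [pow_succ] at h4 ⊢
      refine le_of_le_of_eq h4 ?_
      ring

private theorem P2_binom (e x : ℝ) (he : 0 ≤ e) (hx : 0 ≤ x) (k : ℕ) :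
    e ^ (k + 1) + ((k : ℝ) + 1) * x * e ^ k ≤ (e + x) ^ (k + 1) := by
  induction k with
  | zero => simp
  | succ k ih =>
    have h1 := mul_le_mul_of_nonneg_left ih (add_nonneg he hx)
    have h2 : (0 : ℝ) ≤ ((k : ℝ) + 1) * x * x * e ^ k := by positivity
    have h3 : (e + x) ^ (k + 1 + 1) = (e + x) * (e + x) ^ (k + 1) := by ring
    have h4 : (e + x) * (e ^ (k + 1) + ((k : ℝ) + 1) * x * e ^ k) =
        e ^ (k + 1 + 1) + (((k : ℝ) + 1) + 1) * x * e ^ (k + 1) + ((k : ℝ) + 1) * x * x * e ^ k := by ring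
    rw [h4] at h1
    rw [h3]
    push_cast
    linarith

theorem es_even {τ : Type} [DecidableEq τ] (T : Finset τ) (f : τ → ℝ) (h0 : ∀ t ∈ T, 0 ≤ f t) (h1 : ∀ t ∈ T, f t ≤ 1)
    (m : ℕ) : ∏ t ∈ T, (1 - f t) ≤ ∑ k ∈ range (2 * m + 1), (-1 : ℝ) ^ k * Es T f k := by
  have h := P2_main f T h0 h1 (2 * m + 1)
  have h2 : (-1 : ℝ) ^ (2 * m + 1) = -1 := by
    rw [pow_succ, pow_mul]
    norm_num
  rw [h2] at h
  linarith

theorem es_pow {τ : Type} [DecidableEq τ] (T : Finset τ) (f : τ → ℝ) (h0 : ∀ t ∈ T, 0 ≤ f t) (k : ℕ) :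
    (k.factorial : ℝ) * Es T f k ≤ (∑ t ∈ T, f t) ^ k := by
  induction T using Finset.induction_on generalizing k with
  | empty =>
    rcases k with _ | k
    · simp [P2_zero]
    · rw [P2_empty, mul_zero, Finset.sum_empty]
      simp
  | insert a T ha ih =>
    have h0' : ∀ t ∈ T, 0 ≤ f t := fun t ht => h0 t (Finset.mem_insert_of_mem ht)
    have ha0 : 0 ≤ f a := h0 a (Finset.mem_insert_self a T)
    have he : 0 ≤ ∑ t ∈ T, f t := Finset.sum_nonneg h0'
    rcases k with _ | k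
    · simp [P2_zero]
    · rw [P2_step ha, Finset.sum_insert ha, add_comm (f a)]
      have h1 := ih h0' (k + 1)
      have h2 := mul_le_mul_of_nonneg_left (ih h0' k) (mul_nonneg (by positivity : (0 : ℝ) ≤ (k : ℝ) + 1) ha0)
      have h3 := P2_binom _ _ he ha0 k
      have h4 : ((k + 1).factorial : ℝ) = ((k : ℝ) + 1) * (k.factorial : ℝ) := by
        rw [Nat.factorial_succ]
        push_cast
        ring
      rw [h4] at h1 ⊢
      calc ((k : ℝ) + 1) * (k.factorial : ℝ) * (Es T f (k + 1) + f a * Es T f k)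
          = ((k : ℝ) + 1) * (k.factorial : ℝ) * Es T f (k + 1) + ((k : ℝ) + 1) * f a * ((k.factorial : ℝ) * Es T f k) := by
            ring
        _ ≤ (∑ t ∈ T, f t) ^ (k + 1) + ((k : ℝ) + 1) * f a * (∑ t ∈ T, f t) ^ k := add_le_add h1 h2
        _ ≤ _ := h3

end LVY
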