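import Mathlib

/-!
# LEAF P5: the choice of the number of terms

PROOF.  `C ^ n / n!` tends to `0` (`FloorSemiring.tendsto_pow_div_factorial_atTop`).
-/

namespace LVY

theorem exists_m (C : ℝ) : ∃ m : ℕ, 1 ≤ m ∧ C ^ (2 * m) / (2 * m).factorial ≤ Real.exp (-2 * C) / 2 := by
  have h := FloorSemiring.tendsto_pow_div_factorial_atTop C
  have h2 : Filter.Tendsto (fun m : ℕ => C ^ (2 * m) / ((2 * m).factorial : ℝ)) Filter.atTop
      (nhds 0) := h.comp (Filter.tendsto_id.const_mul_atTop' (by norm_num))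
  have h3 : ∀ᶠ m : ℕ in Filter.atTop,
      C ^ (2 * m) / ((2 * m).factorial : ℝ) < Real.exp (-2 * C) / 2 :=
    h2.eventually_lt_const (by positivity)
  obtain ⟨m, h4, h5⟩ := ((Filter.eventually_ge_atTop 1).and h3).exists
  exact ⟨m, h4, h5.le⟩

end LVY
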