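import Pool.Agent.Lib.MP_17a322_ntLY.PDefs
import Pool.Agent.Lib.MP_17a322_ntLH.F5
import Pool.Agent.Lib.MP_17a322_ntLH.F8

/-! The local heights. -/

namespace LVY

open NumberField
open LVH (fv mon fv_smul fv_le)

/-- the value of a homogeneous polynomial at a multiple -/
theorem aeval_smul {R S ι : Type} [CommRing R] [CommRing S] [Algebra R S] {n : ℕ} {g : MvPolynomial ι R}
    (hg : g.IsHomogeneous n) (l : S) (x : ι → S) :
    MvPolynomial.aeval (l • x) g = l ^ n * MvPolynomial.aeval x g := by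
  rw [MvPolynomial.aeval_def, MvPolynomial.aeval_def, MvPolynomial.eval₂_eq, MvPolynomial.eval₂_eq, Finset.mul_sum]
  refine Finset.sum_congr rfl fun d hd => ?_
  have h1 : d.degree = n := by
    by_contra h
    exact (MvPolynomial.mem_support_iff.1 hd) (hg.coeff_eq_zero h)
  have h2 : ∏ i ∈ d.support, (l • x) i ^ d i = l ^ n * ∏ i ∈ d.support, x i ^ d i := by
    rw [← h1, Finsupp.degree_apply, ← Finset.prod_pow_eq_pow_sum, ← Finset.prod_mul_distrib]
    refine Finset.prod_congr rfl fun i _ => ?_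
    rw [Pi.smul_apply, smul_eq_mul, mul_pow]
  rw [h2]
  ring

/-- the value of a form with integral coefficients at a finite place -/
theorem aeval_le {K σ : Type} [Field K] [NumberField K] [Finite σ] (v : FinitePlace K) {n : ℕ} {g : MvPolynomial σ (𝓞 K)}
    (hg : g.IsHomogeneous n) (x : σ → K) : v (MvPolynomial.aeval x g) ≤ (⨆ w, v (x w)) ^ n := by
  have h0 : ∀ w, v (x w) ≤ ⨆ w, v (x w) := fun w => le_ciSup (Set.finite_range fun w => v (x w)).bddAbove w
  have hM : 0 ≤ ⨆ w, v (x w) := Real.iSup_nonneg fun w => apply_nonneg v _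
  rw [MvPolynomial.aeval_def, MvPolynomial.eval₂_eq]
  have key : ∀ s : Finset (σ →₀ ℕ), s ⊆ g.support →
      v (∑ d ∈ s, algebraMap (𝓞 K) K (MvPolynomial.coeff d g) * ∏ i ∈ d.support, x i ^ d i) ≤ (⨆ w, v (x w)) ^ n := by
    classical
    intro s
    induction s using Finset.induction_on with
    | empty =>
      intro _
      rw [Finset.sum_empty, map_zero]
      exact pow_nonneg hM _
    | insert d s hds ih =>
      intro hs
      rw [Finset.sum_insert hds]
      refine (FinitePlace.add_le v _ _).trans (max_le ?_ (ih fun t ht => hs (Finset.mem_insert_of_mem ht)))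
      have h1 : d.degree = n := by
        by_contra h
        exact (MvPolynomial.mem_support_iff.1 (hs (Finset.mem_insert_self d s))) (hg.coeff_eq_zero h)
      rw [map_mul, map_prod, ← h1, Finsupp.degree_apply, ← Finset.prod_pow_eq_pow_sum]
      have h2 : v (algebraMap (𝓞 K) K (MvPolynomial.coeff d g)) ≤ 1 := LVH.place_int K v _
      have h3 : ∏ i ∈ d.support, v (x i ^ d i) ≤ ∏ i ∈ d.support, (⨆ w, v (x w)) ^ d i := by
        refine Finset.prod_le_prod (fun i _ => apply_nonneg v _) fun i _ => ?_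
        rw [map_pow]
        exact pow_le_pow_left₀ (apply_nonneg v _) (h0 i) _
      calc v (algebraMap (𝓞 K) K (MvPolynomial.coeff d g)) * ∏ i ∈ d.support, v (x i ^ d i)
          ≤ 1 * ∏ i ∈ d.support, (⨆ w, v (x w)) ^ d i :=
            mul_le_mul h2 h3 (Finset.prod_nonneg fun i _ => apply_nonneg v _) zero_le_one
        _ = _ := one_mul _
  exact key g.support (Finset.Subset.refl _)

section

variable {K σ : Type} [Field K] [NumberField K] [Fintype σ] [DecidableEq σ] {j s : ℕ} {d : Fin s → ℕ} {e : Fin j → ℕ}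
  {f : Fin j → MvPolynomial σ (𝓞 K)}

theorem Dv_smul (hf : ∀ l, (f l).IsHomogeneous (e l)) (a : Mo σ d → K) (l : K) (x : σ → K) :
    Dv f a (l • x) = l ^ dg e d * Dv f a x := by
  unfold Dv dg Fv
  have h1 : ∏ k : Fin j, MvPolynomial.aeval (l • x) (f k) = l ^ (∑ k, e k) * ∏ k : Fin j, MvPolynomial.aeval x (f k) := by
    rw [← Finset.prod_pow_eq_pow_sum, ← Finset.prod_mul_distrib]
    exact Finset.prod_congr rfl fun k _ => aeval_smul (hf k) _ _
  have h2 : ∏ i : Fin s, fv (fun α => a ⟨i, α⟩) (l • x) = l ^ (∑ i, d i) * ∏ i : Fin s, fv (fun α => a ⟨i, α⟩) x := by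
    rw [← Finset.prod_pow_eq_pow_sum, ← Finset.prod_mul_distrib]
    exact Finset.prod_congr rfl fun i _ => fv_smul _ _ _
  rw [h1, h2, pow_add]
  ring

private theorem F5_sup_pos {ι K : Type} [Finite ι] [Field K] (v : AbsoluteValue K ℝ) {x : ι → K} (hx : x ≠ 0) :
    0 < ⨆ w, v (x w) := by
  obtain ⟨w, hw⟩ := Function.ne_iff.1 hx
  exact lt_of_lt_of_le (v.pos hw) (le_ciSup (Set.finite_range fun w => v (x w)).bddAbove w)

theorem lam_smul (hf : ∀ l, (f l).IsHomogeneous (e l)) (v : AbsoluteValue K ℝ) (a : Mo σ d → K)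
    {l : K} (hl : l ≠ 0) {x : σ → K} (hx : x ≠ 0) (hD : Dv f a x ≠ 0) : lam v e f a (l • x) = lam v e f a x := by
  unfold lam
  have h1 : (⨆ w, v ((l • x) w)) = v l * ⨆ w, v (x w) := by
    rw [Real.mul_iSup_of_nonneg (v.nonneg l)]
    simp only [Pi.smul_apply, smul_eq_mul, map_mul]
  have h2 := F5_sup_pos v hx
  have h3 : 0 < v l := v.pos hl
  have h4 : 0 < v (Dv f a x) := v.pos hD
  rw [h1, Dv_smul hf, map_mul, map_pow, Real.log_mul h3.ne' h2.ne', Real.log_mul (pow_pos h3 _).ne' h4.ne', Real.log_pow]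
  ring

theorem lam_nonneg (hf : ∀ l, (f l).IsHomogeneous (e l)) (v : FinitePlace K) (a : Mo σ d → K)
    (ha : ∀ t, v (a t) ≤ 1) {x : σ → K} (hx : x ≠ 0) (hD : Dv f a x ≠ 0) : 0 ≤ lam v.1 e f a x := by
  have hM : 0 < ⨆ w, v (x w) := F5_sup_pos v.1 hx
  have h1 : v (Dv f a x) ≤ (⨆ w, v (x w)) ^ dg e d := by
    unfold Dv dg
    rw [map_mul, map_prod, map_prod, pow_add, ← Finset.prod_pow_eq_pow_sum, ← Finset.prod_pow_eq_pow_sum]
    refine mul_le_mul ?_ ?_ (Finset.prod_nonneg fun i _ => apply_nonneg v _)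
      (Finset.prod_nonneg fun i _ => pow_nonneg hM.le _)
    · exact Finset.prod_le_prod (fun i _ => apply_nonneg v _) fun i _ => aeval_le v (hf i) x
    · refine Finset.prod_le_prod (fun i _ => apply_nonneg v _) fun i _ => ?_
      unfold Fv
      exact fv_le v _ (fun t => ha _) x
  have h2 : 0 < v (Dv f a x) := v.1.pos hD
  have h3 := Real.log_le_log h2 h1
  rw [Real.log_pow] at h3
  have h4 : lam v.1 e f a x = (dg e d : ℝ) * Real.log (⨆ w, v (x w)) - Real.log (v (Dv f a x)) := rfl
  rw [h4]
  linarith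

private theorem F5_fin {K : Type} [Field K] [NumberField K] {ι : Type} [Finite ι] {x : ι → K} (hx : x ≠ 0) :
    (Function.mulSupport fun v : FinitePlace K => ⨆ w, v (x w)).Finite := by
  have h1 : (⋃ w : {w : ι // x w ≠ 0}, Function.mulSupport fun v : FinitePlace K => v (x w.1)).Finite :=
    Set.finite_iUnion fun w => FinitePlace.hasFiniteMulSupport w.2
  refine h1.subset fun v hv => ?_
  by_contra hcon
  rw [Set.mem_iUnion] at hcon
  push Not at hcon
  have h2 : ∀ w, x w ≠ 0 → v (x w) = 1 := fun w hw => by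
    by_contra h
    exact hcon ⟨w, hw⟩ h
  rw [Function.mem_mulSupport] at hv
  refine hv ?_
  obtain ⟨w, hw⟩ := Function.ne_iff.1 hx
  have : Nonempty ι := ⟨w⟩
  refine le_antisymm (ciSup_le fun w' => ?_) ?_
  · rcases eq_or_ne (x w') 0 with h | h
    · rw [h, map_zero]
      exact zero_le_one
    · exact (h2 w' h).le
  · rw [← h2 w hw]
    exact le_ciSup (Set.finite_range fun w => v (x w)).bddAbove w

theorem height_eq (e : Fin j → ℕ) (f : Fin j → MvPolynomial σ (𝓞 K)) (a : Mo σ d → K) {x : σ → K}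
    (hx : x ≠ 0) (hD : Dv f a x ≠ 0) : (Function.support fun v : FinitePlace K => lam v.1 e f a x).Finite ∧
      (dg e d : ℝ) * Height.logHeight x =
        ∑ v : InfinitePlace K, (v.mult : ℝ) * lam v.1 e f a x + ∑ᶠ v : FinitePlace K, lam v.1 e f a x := by
  have hM : ∀ v : FinitePlace K, 0 < ⨆ w, v (x w) := fun v => F5_sup_pos v.1 hx
  have hM' : ∀ v : InfinitePlace K, 0 < ⨆ w, v (x w) := fun v => F5_sup_pos v.1 hx
  have hDv : ∀ v : FinitePlace K, 0 < v (Dv f a x) := fun v => v.1.pos hD
  have hDv' : ∀ v : InfinitePlace K, 0 < v (Dv f a x) := fun v => v.1.pos hD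
  have hlam : ∀ v : FinitePlace K, lam v.1 e f a x = (dg e d : ℝ) * Real.log (⨆ w, v (x w)) - Real.log (v (Dv f a x)) :=
    fun v => rfl
  have hlam' : ∀ v : InfinitePlace K, lam v.1 e f a x = (dg e d : ℝ) * Real.log (⨆ w, v (x w)) - Real.log (v (Dv f a x)) :=
    fun v => rfl
  have s1 : (Function.support fun v : FinitePlace K => (dg e d : ℝ) * Real.log (⨆ w, v (x w))).Finite := by
    refine (F5_fin hx).subset fun v hv => ?_
    rw [Function.mem_support] at hv
    rw [Function.mem_mulSupport]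
    intro h
    exact hv (by rw [h, Real.log_one, mul_zero])
  have s2 : (Function.support fun v : FinitePlace K => Real.log (v (Dv f a x))).Finite := by
    refine (FinitePlace.hasFiniteMulSupport hD).subset fun v hv => ?_
    rw [Function.mem_support] at hv
    rw [Function.mem_mulSupport]
    intro h
    exact hv (by rw [h, Real.log_one])
  refine ⟨(s1.union s2).subset fun v hv => ?_, ?_⟩
  · rw [Function.mem_support, hlam v] at hv
    by_contra hcon
    rw [Set.mem_union, Function.mem_support, Function.mem_support] at hcon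
    push Not at hcon
    exact hv (by rw [hcon.1, hcon.2, sub_zero])
  · have h1 : ∑ᶠ v : FinitePlace K, lam v.1 e f a x =
        (dg e d : ℝ) * (∑ᶠ v : FinitePlace K, Real.log (⨆ w, v (x w))) - ∑ᶠ v : FinitePlace K, Real.log (v (Dv f a x)) := by
      rw [mul_finsum, ← finsum_sub_distrib s1 s2]
      exact finsum_congr hlam
    have h2 : Height.logHeight x = ∑ v : InfinitePlace K, (v.mult : ℝ) * Real.log (⨆ w, v (x w)) +
        ∑ᶠ v : FinitePlace K, Real.log (⨆ w, v (x w)) := by
      rw [Height.logHeight_eq_log_mulHeight, NumberField.mulHeight_eq hx, Real.log_mul, Real.log_prod, Real.log_finprod hM]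
      · congr 1
        exact Finset.sum_congr rfl fun v _ => Real.log_pow _ _
      · intro v _
        exact (pow_pos (hM' v) _).ne'
      · exact (Finset.prod_pos fun v _ => pow_pos (hM' v) _).ne'
      · exact (finprod_induction (fun r : ℝ => 0 < r) one_pos (fun _ _ h h' => mul_pos h h') hM).ne'
    have h3 : 0 = ∑ v : InfinitePlace K, (v.mult : ℝ) * Real.log (v (Dv f a x)) +
        ∑ᶠ v : FinitePlace K, Real.log (v (Dv f a x)) := by
      have h4 := congrArg Real.log (NumberField.prod_abs_eq_one hD)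
      rw [Real.log_one, Real.log_mul, Real.log_prod, Real.log_finprod hDv] at h4
      · rw [← h4]
        congr 1
        exact Finset.sum_congr rfl fun v _ => Real.log_pow _ _
      · intro v _
        exact (pow_pos (hDv' v) _).ne'
      · exact (Finset.prod_pos fun v _ => pow_pos (hDv' v) _).ne'
      · exact (finprod_induction (fun r : ℝ => 0 < r) one_pos (fun _ _ h h' => mul_pos h h') hDv).ne'
    have h5 : ∑ v : InfinitePlace K, (v.mult : ℝ) * lam v.1 e f a x =
        (dg e d : ℝ) * (∑ v : InfinitePlace K, (v.mult : ℝ) * Real.log (⨆ w, v (x w))) -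
          ∑ v : InfinitePlace K, (v.mult : ℝ) * Real.log (v (Dv f a x)) := by
      rw [Finset.mul_sum, ← Finset.sum_sub_distrib]
      refine Finset.sum_congr rfl fun v _ => ?_
      rw [hlam' v]
      ring
    rw [h1, h2, h5]
    linarith

end

end LVY
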