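import Pool.Agent.Lib.MP_17a322_ntLY.S1

/-!
# LEAF S2: the slices by at most one hyperplane

PROOF.  `scal`: for `x ∈ Zs G f φ u` and `l ≠ 0` the vector `l • x` is a common zero of `G` (homogeneous) with `f 0 (l • x) = l * u 0`; the map `(x, l) ↦ l • x` from `Zs G f φ u × (ZMod p)ˣ` to the common zeros of `G` is injective (`l` is determined by the value of `f 0`, as `u 0 ≠ 0`).
`sharp1`: for `j = 0` use `lw0` with `k = 10` (`Zs G f φ u` is the set of all common zeros of `G`).  For `j = 1` use `lw0` with `r + 1` and `k = 21`: `21 (p - 1) #Zs ≤ 22 p ^ (r + 1)` by `scal`, so `10 #Zs ≤ 11 p ^ r` if `20 p ≤ 21 (p - 1)`, i.e. `p ≥ 21`: `10 #Zs ≤ (220 / 21) p ^ r * p / (p - 1) ≤ 11 p ^ r`.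
-/

namespace LVY

open NumberField

private theorem S2_smul {σ R S : Type} [CommRing R] [CommRing S] (f : R →+* S) {n : ℕ} {g : MvPolynomial σ R}
    (hg : g.IsHomogeneous n) (l : S) (x : σ → S) :
    MvPolynomial.eval₂ f (l • x) g = l ^ n * MvPolynomial.eval₂ f x g := by
  rw [MvPolynomial.eval₂_eq, MvPolynomial.eval₂_eq, Finset.mul_sum]
  refine Finset.sum_congr rfl fun d hd => ?_
  have h1 : ∑ i ∈ d.support, d i = n := by
    have h2 := hg (MvPolynomial.mem_support_iff.1 hd)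
    rwa [Finsupp.weight_apply, Finsupp.sum, Finset.sum_congr rfl (fun i _ => by
      rw [Pi.one_apply, smul_eq_mul, mul_one])] at h2
  rw [← h1, ← Finset.prod_pow_eq_pow_sum, mul_left_comm, ← Finset.prod_mul_distrib]
  congr 1
  refine Finset.prod_congr rfl fun i _ => ?_
  rw [Pi.smul_apply, smul_eq_mul, mul_pow]

theorem scal (K : Type) [Field K] [NumberField K] {q : ℕ} (G : Finset (MvPolynomial (Fin q) (𝓞 K)))
    (hG : ∀ g ∈ G, ∃ n, g.IsHomogeneous n) (f : Fin 1 → MvPolynomial (Fin q) (𝓞 K)) (hf : ∀ l, (f l).IsHomogeneous 1)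
    {p : ℕ} [Fact p.Prime] (φ : 𝓞 K →+* ZMod p) (u : Fin 1 → ZMod p) (hu : ∀ l, u l ≠ 0) :
    (p - 1) * Nat.card (Zs G f φ u) ≤ Nat.card {x : Fin q → ZMod p // ∀ g ∈ G, MvPolynomial.eval₂ φ x g = 0} := by
  classical
  have hp := (Fact.out : p.Prime)
  have hc : Nat.card (ZMod p)ˣ = p - 1 := by
    rw [Nat.card_eq_fintype_card, ZMod.card_units p]
  rw [← hc, mul_comm, ← Nat.card_prod]
  have hval : ∀ (l : (ZMod p)ˣ) (x : Fin q → ZMod p), x ∈ Zs G f φ u →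
      MvPolynomial.eval₂ φ ((l : ZMod p) • x) (f 0) = l * u 0 := by
    intro l x hx
    rw [S2_smul φ (hf 0), pow_one, hx.2 0]
  refine Nat.card_le_card_of_injective
    (fun z : ↥(Zs G f φ u) × (ZMod p)ˣ => (⟨(z.2 : ZMod p) • z.1.1, fun g hg => by
      obtain ⟨n, hn⟩ := hG g hg
      rw [S2_smul φ hn, z.1.2.1 g hg, mul_zero]⟩ :
        {x : Fin q → ZMod p // ∀ g ∈ G, MvPolynomial.eval₂ φ x g = 0})) ?_
  rintro ⟨⟨x, hx⟩, l⟩ ⟨⟨x', hx'⟩, l'⟩ h
  have h1 : (l : ZMod p) • x = (l' : ZMod p) • x' := congrArg Subtype.val h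
  have h2 : (l : ZMod p) * u 0 = l' * u 0 := by
    rw [← hval l x hx, ← hval l' x' hx', h1]
  have h3 : (l : ZMod p) = l' := mul_right_cancel₀ (hu 0) h2
  have h4 : l = l' := Units.ext h3
  subst h4
  have h5 : x = x' := by
    have h6 := congrArg (fun y => ((l⁻¹ : (ZMod p)ˣ) : ZMod p) • y) h1
    simp only [smul_smul, Units.inv_mul, one_smul] at h6
    exact h6
  subst h5
  rfl

theorem sharp1 (K : Type) [Field K] [NumberField K] {q j r : ℕ} (P : Ideal (MvPolynomial (Fin q) K)) (hP : Hm P)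
    (e : Fin j → ℕ) (f : Fin j → MvPolynomial (Fin q) (𝓞 K)) (hf : ∀ l, (f l).IsHomogeneous (e l)) (hj : j ≤ 1)
    (he : ∀ l, e l = 1) (h : GI P (r + j)) (hr : 1 ≤ r) : ∃ G : Finset (MvPolynomial (Fin q) (𝓞 K)),
      (∀ g ∈ G, ∃ n, g.IsHomogeneous n) ∧ (∀ g ∈ G, MvPolynomial.map (algebraMap (𝓞 K) K) g ∈ P) ∧
        ∃ p1 : ℕ, ∀ (p : ℕ) [Fact p.Prime], p1 ≤ p → ∀ (φ : 𝓞 K →+* ZMod p) (u : Fin j → ZMod p), (∀ l, u l ≠ 0) →
          10 * Nat.card (Zs G f φ u) ≤ 11 * p ^ r := by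
  classical
  obtain rfl | rfl : j = 0 ∨ j = 1 := by omega
  · obtain ⟨G, hG, hGP, p1, h1⟩ := lw0 K P hP h hr 10 (by norm_num)
    refine ⟨G, hG, hGP, p1, fun p _ hp φ u _ => ?_⟩
    refine le_trans (Nat.mul_le_mul_left 10 ?_) (h1 p hp φ)
    refine Nat.card_le_card_of_injective (fun x : ↥(Zs G f φ u) =>
      (⟨x.1, x.2.1⟩ : {x : Fin q → ZMod p // ∀ g ∈ G, MvPolynomial.eval₂ φ x g = 0})) ?_
    intro x x' hx
    exact Subtype.ext (Subtype.mk.inj hx)
  · obtain ⟨G, hG, hGP, p1, h1⟩ := lw0 K P hP h (by omega) 21 (by norm_num)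
    refine ⟨G, hG, hGP, max p1 21, fun p _ hp φ u hu => ?_⟩
    have hpa : p1 ≤ p := (le_max_left _ _).trans hp
    have hpb : 21 ≤ p := (le_max_right _ _).trans hp
    have h2 := h1 p hpa φ
    have h3 := scal K G hG f (fun l => he l ▸ hf l) φ u hu
    generalize Nat.card (Zs G f φ u) = N at h3 ⊢
    have h4 : 21 * ((p - 1) * N) ≤ 22 * (p ^ r * p) := by
      rw [← pow_succ]
      exact (Nat.mul_le_mul_left 21 h3).trans h2
    obtain ⟨k, rfl⟩ : ∃ k, p = k + 21 := ⟨p - 21, by omega⟩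
    rw [show k + 21 - 1 = k + 20 by omega] at h4
    have h5 : 20 * ((k + 21) * N) ≤ 21 * ((k + 20) * N) := by
      rw [← mul_assoc, ← mul_assoc]
      exact Nat.mul_le_mul_right N (by omega)
    have h6 : (10 * N) * (k + 21) ≤ (11 * (k + 21) ^ r) * (k + 21) := by
      have h7 : 20 * ((k + 21) * N) = 2 * ((10 * N) * (k + 21)) := by ring
      have h8 : 22 * ((k + 21) ^ r * (k + 21)) = 2 * ((11 * (k + 21) ^ r) * (k + 21)) := by ring
      omega
    exact Nat.le_of_mul_le_mul_right h6 (by omega)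

end LVY
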