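import Pool.Agent.Lib.MP_17a322_ntLY.PDefs

/-!
# LEAF S3: hyperplanes in projective space

PROOF.  Let `Lf l` be the coefficient vector of the linear form `f l`, so that `eval x (f l) = ∑ b, Lf l b * x b`.  `lin_le`: the `f l` and the `r` linear forms of `GP ⊥ f r` have no common zero other than `0` over the algebraic closure (as `P = ⊥`, the first condition is void), so `q ≤ j + r` (`q` unknowns and `j + r` homogeneous linear equations).
`lin_sl`: the `Lf l` are linearly independent over `K`, so there are vectors `B l` in `K ^ q` with `∑ b, Lf l b * B m b = δ l m`; with a nonzero integer `M` such that the `M B m` are integral (call them `B' m`), `∑ b, Lf l b * B' m b = M δ l m`.  Modulo `p > M`: the linear map `x ↦ (eval₂ φ x (f l))_l` from `(ZMod p) ^ q` to `(ZMod p) ^ j` is surjective, its fibres have `p ^ (q - j)` elements (so `j ≤ q`), and `q - j ≤ r`.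
-/

namespace LVY

open NumberField

private theorem S3_form {R : Type} [CommRing R] {q : ℕ} (g : MvPolynomial (Fin q) R) (hg : g.IsHomogeneous 1) :
    ∃ c : Fin q → R, ∑ b, c b • (MvPolynomial.X b : MvPolynomial (Fin q) R) = g := by
  have h : g ∈ MvPolynomial.homogeneousSubmodule (Fin q) R 1 := hg
  rw [MvPolynomial.homogeneousSubmodule_one_eq_span_X] at h
  exact (Submodule.mem_span_range_iff_exists_fun R).1 h

private theorem S3_le (K : Type) [Field K] [NumberField K] {q j r : ℕ} (f : Fin j → MvPolynomial (Fin q) (𝓞 K))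
    (hf : ∀ l, (f l).IsHomogeneous 1)
    (h : GP (⊥ : Ideal (MvPolynomial (Fin q) K)) f r) : q ≤ j + r := by
  classical
  obtain ⟨ell, he, h0⟩ := h
  choose c hc using fun l => S3_form (f l) (hf l)
  choose e hE using fun k => S3_form (ell k) (he k)
  let A : (Fin q → AlgebraicClosure K) →ₗ[AlgebraicClosure K] (Fin j ⊕ Fin r → AlgebraicClosure K) :=
    Matrix.mulVecLin (Matrix.of (Sum.elim
      (fun l b => algebraMap K (AlgebraicClosure K) (algebraMap (𝓞 K) K (c l b)))
      (fun k b => algebraMap K (AlgebraicClosure K) (e k b))))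
  have hA : Function.Injective A := by
    rw [injective_iff_map_eq_zero]
    intro x hx
    refine h0 x (fun g hg => ?_) (fun l => ?_) (fun k => ?_)
    · rw [Ideal.mem_bot] at hg; simp [hg]
    · have h1 := congrFun hx (Sum.inl l)
      simp only [A, Matrix.mulVecLin_apply, Matrix.mulVec, dotProduct, Matrix.of_apply, Sum.elim_inl, Pi.zero_apply] at h1
      rw [← hc l, map_sum, map_sum, ← h1]
      refine Finset.sum_congr rfl fun b _ => ?_
      rw [MvPolynomial.smul_eq_C_mul, map_mul, MvPolynomial.map_C, MvPolynomial.map_X, map_mul,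
        MvPolynomial.aeval_C, MvPolynomial.aeval_X]
    · have h1 := congrFun hx (Sum.inr k)
      simp only [A, Matrix.mulVecLin_apply, Matrix.mulVec, dotProduct, Matrix.of_apply, Sum.elim_inr, Pi.zero_apply] at h1
      rw [← hE k, map_sum, ← h1]
      refine Finset.sum_congr rfl fun b _ => ?_
      rw [MvPolynomial.smul_eq_C_mul, map_mul, MvPolynomial.aeval_C, MvPolynomial.aeval_X]
  have h1 := LinearMap.finrank_le_finrank_of_injective hA
  simpa using h1

private theorem S3_inv (K : Type) [Field K] [NumberField K] {q j : ℕ} (c : Fin j → Fin q → 𝓞 K)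
    (hi : LinearIndependent (𝓞 K) c) :
    ∃ (N : ℕ) (n t : 𝓞 K) (B : Matrix (Fin q) (Fin j) (𝓞 K)), N ≠ 0 ∧ n * t = N ∧
      Matrix.of c * B = n • (1 : Matrix (Fin j) (Fin j) (𝓞 K)) := by
  classical
  let U : (Fin q → 𝓞 K) →ₗ[𝓞 K] (Fin q → K) := (Algebra.linearMap (𝓞 K) K).compLeft (Fin q)
  have hU : LinearMap.ker U = ⊥ := by
    rw [LinearMap.ker_eq_bot]
    intro x y hxy
    funext b
    exact RingOfIntegers.coe_injective (congrFun hxy b)
  have h1 : LinearIndependent K (fun l => U (c l)) :=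
    (LinearIndependent.iff_fractionRing (𝓞 K) K).1 (hi.map' U hU)
  let Q : Matrix (Fin j) (Fin q) K := Matrix.of fun l b => algebraMap (𝓞 K) K (c l b)
  have h2 : Q.rank = j := by
    have := LinearIndependent.rank_matrix (M := Q) h1
    simpa using this
  have h3 : LinearMap.range Q.mulVecLin = ⊤ := by
    apply Submodule.eq_top_of_finrank_eq
    rw [Matrix.rank] at h2
    simpa using h2
  have h4 : ∀ m : Fin j, ∃ x : Fin q → K, Q.mulVec x = Pi.single m 1 := fun m => by
    have : (Pi.single m 1 : Fin j → K) ∈ LinearMap.range Q.mulVecLin := by rw [h3]; trivial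
    obtain ⟨x, hx⟩ := this
    exact ⟨x, hx⟩
  choose B hB using h4
  obtain ⟨n, hn⟩ := IsLocalization.exist_integer_multiples_of_finite (nonZeroDivisors (𝓞 K))
    (fun w : Fin q × Fin j => B w.2 w.1)
  choose B' hB' using hn
  have hn0 : (n : 𝓞 K) ≠ 0 := nonZeroDivisors.coe_ne_zero n
  have h5 : ((Ideal.absNorm (Ideal.span {(n : 𝓞 K)}) : ℕ) : 𝓞 K) ∈ Ideal.span {(n : 𝓞 K)} := Ideal.absNorm_mem _
  obtain ⟨t, ht⟩ := Ideal.mem_span_singleton.1 h5
  refine ⟨Ideal.absNorm (Ideal.span {(n : 𝓞 K)}), n, t, Matrix.of fun b m => B' (b, m), ?_, ht.symm, ?_⟩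
  · intro h
    rw [Ideal.absNorm_eq_zero_iff, Ideal.span_singleton_eq_bot] at h
    exact hn0 h
  · refine Matrix.ext fun l m => ?_
    apply RingOfIntegers.coe_injective
    have h6 := congrFun (hB m) l
    simp only [Q, Matrix.mulVec, dotProduct, Matrix.of_apply] at h6
    simp only [Matrix.mul_apply, Matrix.of_apply, Matrix.smul_apply, Matrix.one_apply, map_sum, map_mul, smul_eq_mul]
    have h7 : ∀ b, algebraMap (𝓞 K) K (B' (b, m)) = algebraMap (𝓞 K) K n * B m b := fun b => by
      rw [hB' (b, m), Algebra.smul_def]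
    simp only [h7]
    have h8 : ∑ b, algebraMap (𝓞 K) K (c l b) * (algebraMap (𝓞 K) K n * B m b) =
        algebraMap (𝓞 K) K n * ∑ b, algebraMap (𝓞 K) K (c l b) * B m b := by
      rw [Finset.mul_sum]
      exact Finset.sum_congr rfl fun b _ => by ring
    rw [h8, h6, Pi.single_apply]
    split_ifs <;> simp

theorem lin_sl (K : Type) [Field K] [NumberField K] {q j r : ℕ} (f : Fin j → MvPolynomial (Fin q) (𝓞 K))
    (hf : ∀ l, (f l).IsHomogeneous 1) (hi : LinearIndependent (𝓞 K) f)
    (h : GP (⊥ : Ideal (MvPolynomial (Fin q) K)) f r) :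
    ∃ p1 : ℕ, ∀ (p : ℕ) [Fact p.Prime], p1 ≤ p → ∀ (φ : 𝓞 K →+* ZMod p) (u : Fin j → ZMod p),
      Nat.card (Zs ∅ f φ u) ≤ p ^ r := by
  classical
  have hq := S3_le K f hf h
  choose c hc using fun l => S3_form (f l) (hf l)
  have hi' : LinearIndependent (𝓞 K) c := by
    have : f = Fintype.linearCombination (𝓞 K) (MvPolynomial.X : Fin q → MvPolynomial (Fin q) (𝓞 K)) ∘ c := by
      funext l
      rw [Function.comp_apply, Fintype.linearCombination_apply, hc l]
    rw [this] at hi
    exact hi.of_comp _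
  obtain ⟨N, n, t, B, hN, hn, hB⟩ := S3_inv K c hi'
  refine ⟨N + 1, fun p _ hp φ u => ?_⟩
  have hφ : φ n ≠ 0 := by
    intro h0
    have h1 : ((N : ℕ) : ZMod p) = 0 := by
      rw [← map_natCast φ N, ← hn, map_mul, h0, zero_mul]
    rw [ZMod.natCast_eq_zero_iff] at h1
    have := Nat.le_of_dvd (Nat.pos_of_ne_zero hN) h1
    omega
  let A : (Fin q → ZMod p) →ₗ[ZMod p] (Fin j → ZMod p) := Matrix.mulVecLin ((Matrix.of c).map φ)
  have hA : ∀ x l, A x l = MvPolynomial.eval₂ φ x (f l) := by
    intro x l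
    rw [← hc l]
    simp only [A, Matrix.mulVecLin_apply, Matrix.mulVec, dotProduct, Matrix.map_apply, Matrix.of_apply]
    rw [MvPolynomial.eval₂_sum]
    refine Finset.sum_congr rfl fun b _ => ?_
    rw [MvPolynomial.smul_eq_C_mul, MvPolynomial.eval₂_mul, MvPolynomial.eval₂_C, MvPolynomial.eval₂_X]
  have hAs : LinearMap.range A = ⊤ := by
    rw [LinearMap.range_eq_top]
    intro y
    refine ⟨(φ n)⁻¹ • (B.map φ).mulVec y, ?_⟩
    rw [map_smul]
    have h1 : A ((B.map φ).mulVec y) = φ n • y := by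
      show ((Matrix.of c).map φ).mulVec ((B.map φ).mulVec y) = _
      rw [Matrix.mulVec_mulVec, ← Matrix.map_mul, hB]
      have h2 : (n • (1 : Matrix (Fin j) (Fin j) (𝓞 K))).map φ = φ n • (1 : Matrix (Fin j) (Fin j) (ZMod p)) := by
        ext a b
        simp only [Matrix.map_apply, Matrix.smul_apply, Matrix.one_apply, smul_eq_mul, map_mul]
        split_ifs <;> simp
      rw [h2, Matrix.smul_mulVec, Matrix.one_mulVec]
    rw [h1, smul_smul, inv_mul_cancel₀ hφ, one_smul]
  have hrk := LinearMap.finrank_range_add_finrank_ker A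
  rw [hAs, finrank_top, Module.finrank_fin_fun, Module.finrank_fin_fun] at hrk
  have hker : Nat.card (LinearMap.ker A) = p ^ Module.finrank (ZMod p) (LinearMap.ker A) := by
    rw [Module.natCard_eq_pow_finrank (K := ZMod p), Nat.card_zmod]
  have hle : Nat.card (Zs ∅ f φ u) ≤ Nat.card (LinearMap.ker A) := by
    rcases (Zs ∅ f φ u).eq_empty_or_nonempty with h0 | ⟨x0, hx0⟩
    · rw [h0]; simp
    · refine Nat.card_le_card_of_injective
        (fun x : Zs ∅ f φ u => (⟨x.1 - x0, ?_⟩ : LinearMap.ker A)) ?_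
      · rw [LinearMap.mem_ker, map_sub, sub_eq_zero]
        funext l
        rw [hA, hA, x.2.2 l, hx0.2 l]
      · intro x y hxy
        have := congrArg Subtype.val hxy
        exact Subtype.ext (sub_left_injective this)
  refine hle.trans ?_
  rw [hker]
  exact Nat.pow_le_pow_right (Fact.out (p := p.Prime)).pos (by omega)

end LVY
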