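import Mathlib

/-!
# LEAF P1: the Bonferroni inequality for binomial coefficients

PROOF.  For `n = 0` the sum is `1`.  For `n ≥ 1` it is `(-1) ^ (2 m - 1) * choose (n - 1) (2 m - 1) ≤ 0`
(`Int.alternating_sum_range_choose_eq_choose`).
-/

namespace LVY

private theorem P1_aux (n k : ℕ) :
    ∑ i ∈ Finset.range (k + 1), (-1 : ℤ) ^ i * ((n + 1).choose i : ℤ) = (-1) ^ k * (n.choose k : ℤ) := by
  induction k with
  | zero => simp
  | succ k ih =>
    rw [Finset.sum_range_succ, ih, Nat.choose_succ_succ]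
    push_cast
    ring

theorem bon (n m : ℕ) (hm : 1 ≤ m) :
    ∑ k ∈ Finset.range (2 * m), (-1 : ℤ) ^ k * (n.choose k : ℤ) ≤ if n = 0 then 1 else 0 := by
  rcases Nat.eq_zero_or_pos n with h | h
  · subst h
    rw [if_pos rfl]
    have h1 : ∑ k ∈ Finset.range (2 * m), (-1 : ℤ) ^ k * ((0 : ℕ).choose k : ℤ) = 1 := by
      rw [Finset.sum_eq_single_of_mem 0 (Finset.mem_range.2 (by omega))]
      · simp
      · intro k _ hk
        rw [Nat.choose_eq_zero_of_lt (Nat.pos_of_ne_zero hk)]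
        simp
    exact h1.le
  · rw [if_neg h.ne']
    obtain ⟨n', rfl⟩ : ∃ n', n = n' + 1 := ⟨n - 1, by omega⟩
    obtain ⟨k, hk⟩ : ∃ k, 2 * m = k + 1 := ⟨2 * m - 1, by omega⟩
    have hodd : Odd k := ⟨m - 1, by omega⟩
    rw [hk, P1_aux, hodd.neg_one_pow]
    have h2 : (0 : ℤ) ≤ (n'.choose k : ℤ) := Int.natCast_nonneg _
    linarith

end LVY
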