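import Pool.Agent.Lib.MP_17a322_ntLY.Defs
import Pool.Agent.Lib.MP_17a322_ntLX.PDefs

/-! Interface definitions. -/

namespace LVY

open NumberField
open LVH (fv co Pl)

/-- the values of the fixed forms and of the random forms -/
noncomputable def cmp {K σ : Type} [Field K] [NumberField K] [Fintype σ] [DecidableEq σ] {j s : ℕ} {d : Fin s → ℕ}
    (f : Fin j → MvPolynomial σ (𝓞 K)) (a : Mo σ d → K) (x : σ → K) : Fin j ⊕ Fin s → K :=
  Sum.elim (fun l => MvPolynomial.aeval x (f l)) (fun i => Fv a i x)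

/-- the common zeros modulo `p` of the elements of `G` at which the forms `f l` have the values `u l` -/
def Zs {K σ : Type} [Field K] [NumberField K] {p j : ℕ} (G : Finset (MvPolynomial σ (𝓞 K)))
    (f : Fin j → MvPolynomial σ (𝓞 K)) (φ : 𝓞 K →+* ZMod p) (u : Fin j → ZMod p) : Set (σ → ZMod p) :=
  {x | (∀ g ∈ G, MvPolynomial.eval₂ φ x g = 0) ∧ ∀ l, MvPolynomial.eval₂ φ x (f l) = u l}

/-- the coefficient vectors of the forms which have the values `y i` at a common point of `Z` -/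
def Fn {σ : Type} [Fintype σ] [DecidableEq σ] {p s : ℕ} (Z : Set (σ → ZMod p)) (d : Fin s → ℕ) (y : Fin s → ZMod p) :
    Set (Mo σ d → ZMod p) := {a | ∃ x ∈ Z, ∀ i, Fv a i x = y i}

/-- the local density statement -/
def LD {K σ : Type} [Field K] [NumberField K] [Fintype σ] [DecidableEq σ] {j s : ℕ} (G : Finset (MvPolynomial σ (𝓞 K)))
    (f : Fin j → MvPolynomial σ (𝓞 K)) (d : Fin s → ℕ) : Prop :=
  ∃ c : ℝ, 0 < c ∧ c < 1 ∧ ∃ p0 : ℕ, ∀ (p : ℕ) [Fact p.Prime], p0 ≤ p → ∀ (φ : 𝓞 K →+* ZMod p) (u : Fin j → ZMod p),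
    (∀ l, u l ≠ 0) → ∀ y : Fin s → ZMod p, (∀ i, y i ≠ 0) →
      (Nat.card (Fn (Zs G f φ u) d y) : ℝ) ≤ (1 - c) * (p : ℝ) ^ Fintype.card (Mo σ d)

/-- the elementary symmetric sum -/
noncomputable def Es {τ : Type} [DecidableEq τ] (T : Finset τ) (f : τ → ℝ) (k : ℕ) : ℝ :=
  ∑ U ∈ T.powersetCard k, ∏ t ∈ U, f t

/-- the coefficient vectors of the forms other than the `i0`-th -/
abbrev Bo (σ : Type) (p : ℕ) {s : ℕ} (d : Fin s → ℕ) (i0 : Fin s) : Type :=
  (i : {i : Fin s // i ≠ i0}) → Sym σ (d i.1) → ZMod p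

/-- the vectors of `Z` at which these forms have the values `y i` -/
def Zb {σ : Type} [Fintype σ] [DecidableEq σ] {p s : ℕ} (Z : Set (σ → ZMod p)) {d : Fin s → ℕ} {i0 : Fin s}
    (y : Fin s → ZMod p) (b : Bo σ p d i0) : Set (σ → ZMod p) := {x | x ∈ Z ∧ ∀ i, fv (b i) x = y i.1}

end LVY
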