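import Pool.Agent.Lib.MP_17a322_ntLY.PDefs
import Pool.Agent.Lib.LW.Main

/-!
# LEAF S1: the cones of geometrically integral varieties modulo primes

PROOF.  `LW.lang_weil'` (file `LW/Main.lean`) gives `G0`; `G` is the set of the homogeneous components of the elements of `G0` (as in `cone_zero`, file `MP_17a322_ntLX/Cone.lean`, or `LVX.nlc`, file `MP_17a322_ntLX/NLc.lean`: they are in `P` after mapping to `K`, as `P` is homogeneous and `MvPolynomial.homogeneousComponent` commutes with `MvPolynomial.map`; a common zero of `G` is a common zero of `G0`).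
-/

namespace LVY

open NumberField

private theorem S1_map_hc {σ R S : Type} [CommRing R] [CommRing S] (f : R →+* S) (n : ℕ) (g : MvPolynomial σ R) :
    MvPolynomial.map f (MvPolynomial.homogeneousComponent n g) =
      MvPolynomial.homogeneousComponent n (MvPolynomial.map f g) := by
  ext d
  rw [MvPolynomial.coeff_map, MvPolynomial.coeff_homogeneousComponent, MvPolynomial.coeff_homogeneousComponent,
    MvPolynomial.coeff_map]
  split_ifs <;> simp

theorem lw0 (K : Type) [Field K] [NumberField K] {q r : ℕ} (P : Ideal (MvPolynomial (Fin q) K)) (hP : Hm P)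
    (h : GI P r) (hr : 1 ≤ r) (k : ℕ) (hk : 1 ≤ k) : ∃ G : Finset (MvPolynomial (Fin q) (𝓞 K)),
      (∀ g ∈ G, ∃ n, g.IsHomogeneous n) ∧ (∀ g ∈ G, MvPolynomial.map (algebraMap (𝓞 K) K) g ∈ P) ∧
        ∃ p1 : ℕ, ∀ (p : ℕ) [Fact p.Prime], p1 ≤ p → ∀ φ : 𝓞 K →+* ZMod p,
          k * Nat.card {x : Fin q → ZMod p // ∀ g ∈ G, MvPolynomial.eval₂ φ x g = 0} ≤ (k + 1) * p ^ r := by
  classical
  obtain ⟨G0, hG0, h0⟩ := LW.lang_weil' K P h.1 hr h.2
  obtain ⟨p0, hp0⟩ := h0 k hk
  refine ⟨G0.biUnion fun g => (Finset.range (g.totalDegree + 1)).image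
    fun n => MvPolynomial.homogeneousComponent n g, ?_, ?_, p0, ?_⟩
  · intro g hg
    obtain ⟨g0, _, hg1⟩ := Finset.mem_biUnion.1 hg
    obtain ⟨n, _, rfl⟩ := Finset.mem_image.1 hg1
    exact ⟨n, MvPolynomial.homogeneousComponent_isHomogeneous n _⟩
  · intro g hg
    obtain ⟨g0, hg0, hg1⟩ := Finset.mem_biUnion.1 hg
    obtain ⟨n, _, rfl⟩ := Finset.mem_image.1 hg1
    rw [S1_map_hc]
    exact hP _ (hG0 g0 hg0) n
  · intro p hp hp1 φ
    refine le_trans (Nat.mul_le_mul_left k ?_) (hp0 p hp1 φ)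
    refine Nat.card_le_card_of_injective (fun z => ⟨z.1, fun g hg => ?_⟩) ?_
    · rw [← MvPolynomial.sum_homogeneousComponent g, MvPolynomial.eval₂_sum]
      refine Finset.sum_eq_zero fun n hn => ?_
      exact z.2 _ (Finset.mem_biUnion.2 ⟨g, hg, Finset.mem_image.2 ⟨n, hn, rfl⟩⟩)
    · intro a b hab
      exact Subtype.ext (congrArg (fun z => z.1) hab)

end LVY
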