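import Mathlib

/-!
# LEAF S5: collinear triples in a slice of a cone

PROOF.  Let `A` be the set of the triples `(x, x', l)` of the left side, and consider `(x, x', l, μ, ν)` with `(x, x', l) ∈ A`, `μ`, `ν` nonzero and `l / μ + (1 - l) / ν ≠ 0`.  With `κ = (l / μ + (1 - l) / ν)⁻¹` the triple `(μ x, ν x', κ l / μ)` is in the set of the right side: `1 - κ l / μ = κ (1 - l) / ν`, and `(κ l / μ) μ x + (κ (1 - l) / ν) ν x' = κ (l x + (1 - l) x') ∈ Z`.  This map is injective: `μ` and `ν` are determined by the values `μ c`, `ν c` of `a0`, hence `x` and `x'`, and `l' = κ l / μ` determines `l` (from `l' / μ⁻¹ ` and `(1 - l') / ν⁻¹`: `l : (1 - l) = l' μ : (1 - l') ν`, and the sum `l' μ + (1 - l') ν = κ` is not `0`).  For given `(x, x', l)` there are at least `(p - 1) (p - 2)` pairs `(μ, ν)`: the condition is `l ν + (1 - l) μ ≠ 0`; if `l = 0` or `l = 1` it is automatic, otherwise for each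 `μ` at most one `ν` is excluded.
-/

namespace LVY

private theorem S5_count {p : ℕ} [Fact p.Prime] (l μ : ZMod p) (hμ : μ ≠ 0) :
    p - 2 ≤ Nat.card {ν : ZMod p // ν ≠ 0 ∧ l * ν + (1 - l) * μ ≠ 0} := by
  classical
  rw [Nat.card_eq_fintype_card, Fintype.card_subtype]
  have h1 : (Finset.univ \ {0, (l - 1) * μ / l} : Finset (ZMod p))
      ⊆ Finset.univ.filter (fun ν => ν ≠ 0 ∧ l * ν + (1 - l) * μ ≠ 0) := by
    intro ν hν
    rw [Finset.mem_sdiff, Finset.mem_insert, Finset.mem_singleton, not_or] at hν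
    obtain ⟨-, h0, hz⟩ := hν
    rw [Finset.mem_filter]
    refine ⟨Finset.mem_univ _, h0, ?_⟩
    intro h
    by_cases hl : l = 0
    · rw [hl, zero_mul, zero_add, sub_zero, one_mul] at h
      exact hμ h
    · apply hz
      rw [eq_div_iff hl]
      linear_combination h
  have h2 := Finset.card_le_card h1
  have h3 := Finset.le_card_sdiff ({0, (l - 1) * μ / l} : Finset (ZMod p)) Finset.univ
  have h4 : ({0, (l - 1) * μ / l} : Finset (ZMod p)).card ≤ 2 := Finset.card_le_two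
  rw [Finset.card_univ, ZMod.card] at h3
  omega

private theorem S5_smul_sum {p : ℕ} [Fact p.Prime] {q : ℕ} (a0 x : Fin q → ZMod p) (μ : ZMod p) :
    ∑ k, a0 k * (μ • x) k = μ * ∑ k, a0 k * x k := by
  rw [Finset.mul_sum]
  refine Finset.sum_congr rfl fun k _ => ?_
  rw [Pi.smul_apply, smul_eq_mul]
  ring

private theorem S5_units {p : ℕ} [Fact p.Prime] : Nat.card {μ : ZMod p // μ ≠ 0} = p - 1 := by
  classical
  rw [Nat.card_eq_fintype_card, Fintype.card_subtype_compl, ZMod.card, Fintype.card_subtype_eq]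

theorem tt_scal {p : ℕ} [Fact p.Prime] {q : ℕ} (Z : Set (Fin q → ZMod p)) (hZ : ∀ x ∈ Z, ∀ l : ZMod p, l • x ∈ Z)
    (a0 : Fin q → ZMod p) (c : ZMod p) (hc : c ≠ 0) :
    (p - 1) * (p - 2) * Nat.card {t : ((Fin q → ZMod p) × (Fin q → ZMod p)) × ZMod p //
      (t.1.1 ∈ Z ∧ ∑ k, a0 k * t.1.1 k = c) ∧ (t.1.2 ∈ Z ∧ ∑ k, a0 k * t.1.2 k = c) ∧
        t.2 • t.1.1 + (1 - t.2) • t.1.2 ∈ Z ∧ ∑ k, a0 k * (t.2 • t.1.1 + (1 - t.2) • t.1.2) k = c} ≤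
      Nat.card {t : ((Fin q → ZMod p) × (Fin q → ZMod p)) × ZMod p //
        t.1.1 ∈ Z ∧ t.1.2 ∈ Z ∧ t.2 • t.1.1 + (1 - t.2) • t.1.2 ∈ Z} := by
  classical
  have hmem : ∀ (x x' : Fin q → ZMod p) (l μ ν : ZMod p), l * ν + (1 - l) * μ ≠ 0 →
      l • x + (1 - l) • x' ∈ Z →
      (l * ν / (l * ν + (1 - l) * μ)) • (μ • x) + (1 - l * ν / (l * ν + (1 - l) * μ)) • (ν • x') ∈ Z := by
    intro x x' l μ ν hs hx
    have h1 : (l * ν / (l * ν + (1 - l) * μ)) • (μ • x)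
        + (1 - l * ν / (l * ν + (1 - l) * μ)) • (ν • x')
        = (μ * ν / (l * ν + (1 - l) * μ)) • (l • x + (1 - l) • x') := by
      ext k
      simp only [Pi.add_apply, Pi.smul_apply, smul_eq_mul]
      field_simp
      ring
    rw [h1]
    exact hZ _ hx _
  let f : (Σ t : {t : ((Fin q → ZMod p) × (Fin q → ZMod p)) × ZMod p //
      (t.1.1 ∈ Z ∧ ∑ k, a0 k * t.1.1 k = c) ∧ (t.1.2 ∈ Z ∧ ∑ k, a0 k * t.1.2 k = c) ∧
        t.2 • t.1.1 + (1 - t.2) • t.1.2 ∈ Z ∧ ∑ k, a0 k * (t.2 • t.1.1 + (1 - t.2) • t.1.2) k = c},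
      Σ μ : {μ : ZMod p // μ ≠ 0}, {ν : ZMod p // ν ≠ 0 ∧ t.1.2 * ν + (1 - t.1.2) * μ.1 ≠ 0}) →
      {t : ((Fin q → ZMod p) × (Fin q → ZMod p)) × ZMod p //
        t.1.1 ∈ Z ∧ t.1.2 ∈ Z ∧ t.2 • t.1.1 + (1 - t.2) • t.1.2 ∈ Z} := fun u =>
    ⟨((u.2.1.1 • u.1.1.1.1, u.2.2.1 • u.1.1.1.2),
      u.1.1.2 * u.2.2.1 / (u.1.1.2 * u.2.2.1 + (1 - u.1.1.2) * u.2.1.1)),
      hZ _ u.1.2.1.1 _, hZ _ u.1.2.2.1.1 _, hmem _ _ _ _ _ u.2.2.2.2 u.1.2.2.2.1⟩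
  have hf : Function.Injective f := by
    rintro ⟨⟨⟨⟨x, x'⟩, l⟩, ht⟩, ⟨μ, hμ⟩, ⟨ν, hν⟩⟩ ⟨⟨⟨⟨y, y'⟩, l2⟩, ht2⟩, ⟨μ2, hμ2⟩, ⟨ν2, hν2⟩⟩ h
    have h0 := congrArg Subtype.val h
    have e1 : μ • x = μ2 • y := congrArg (fun t => t.1.1) h0
    have e2 : ν • x' = ν2 • y' := congrArg (fun t => t.1.2) h0
    have e3 : l * ν / (l * ν + (1 - l) * μ) = l2 * ν2 / (l2 * ν2 + (1 - l2) * μ2) :=
      congrArg (fun t => t.2) h0
    obtain ⟨⟨-, hx⟩, ⟨-, hx'⟩, -⟩ := id ht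
    obtain ⟨⟨-, hy⟩, ⟨-, hy'⟩, -⟩ := id ht2
    have hx1 : ∑ k, a0 k * x k = c := hx
    have hx2 : ∑ k, a0 k * x' k = c := hx'
    have hy1 : ∑ k, a0 k * y k = c := hy
    have hy2 : ∑ k, a0 k * y' k = c := hy'
    have m1 : μ = μ2 := by
      have h1 := S5_smul_sum a0 x μ
      rw [e1, S5_smul_sum, hx1, hy1] at h1
      exact (mul_right_cancel₀ hc h1).symm
    have m2 : ν = ν2 := by
      have h1 := S5_smul_sum a0 x' ν
      rw [e2, S5_smul_sum, hx2, hy2] at h1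
      exact (mul_right_cancel₀ hc h1).symm
    subst m1 m2
    have m3 : x = y := smul_right_injective _ hμ e1
    have m4 : x' = y' := smul_right_injective _ hν.1 e2
    subst m3 m4
    have hs : l * ν + (1 - l) * μ ≠ 0 := hν.2
    have hs2 : l2 * ν + (1 - l2) * μ ≠ 0 := hν2.2
    rw [div_eq_div_iff hs hs2] at e3
    have m5 : l = l2 := by
      have h1 : ν * μ * (l - l2) = 0 := by linear_combination e3
      rcases mul_eq_zero.1 h1 with h2 | h2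
      · exact absurd h2 (mul_ne_zero hν.1 hμ)
      · exact sub_eq_zero.1 h2
    subst m5
    rfl
  have hcard := Nat.card_le_card_of_injective f hf
  refine le_trans ?_ hcard
  rw [Nat.card_sigma]
  calc (p - 1) * (p - 2) * Nat.card {t : ((Fin q → ZMod p) × (Fin q → ZMod p)) × ZMod p //
      (t.1.1 ∈ Z ∧ ∑ k, a0 k * t.1.1 k = c) ∧ (t.1.2 ∈ Z ∧ ∑ k, a0 k * t.1.2 k = c) ∧
        t.2 • t.1.1 + (1 - t.2) • t.1.2 ∈ Z ∧ ∑ k, a0 k * (t.2 • t.1.1 + (1 - t.2) • t.1.2) k = c}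
      = ∑ _t : {t : ((Fin q → ZMod p) × (Fin q → ZMod p)) × ZMod p //
      (t.1.1 ∈ Z ∧ ∑ k, a0 k * t.1.1 k = c) ∧ (t.1.2 ∈ Z ∧ ∑ k, a0 k * t.1.2 k = c) ∧
        t.2 • t.1.1 + (1 - t.2) • t.1.2 ∈ Z ∧ ∑ k, a0 k * (t.2 • t.1.1 + (1 - t.2) • t.1.2) k = c},
        (p - 1) * (p - 2) := by
        rw [Finset.sum_const, Finset.card_univ, smul_eq_mul, Nat.card_eq_fintype_card, mul_comm]
    _ ≤ _ := by
        refine Finset.sum_le_sum fun t _ => ?_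
        rw [Nat.card_sigma]
        calc (p - 1) * (p - 2) = ∑ _μ : {μ : ZMod p // μ ≠ 0}, (p - 2) := by
              rw [Finset.sum_const, Finset.card_univ, smul_eq_mul, ← Nat.card_eq_fintype_card,
                S5_units]
          _ ≤ _ := Finset.sum_le_sum fun μ _ => S5_count _ _ μ.2

end LVY
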